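import Pool.Agent.Helper17.CR.Stmts

set_option autoImplicit false

namespace Pool.Agent.Helper79.CR

open Finset Pool.Agent.Helper17.CR

universe u

theorem des_inc {X : Type u} [Fintype X] [DecidableEq X] (θ : X → Finset X) (g : Equiv.Perm X)
    (hg : Aut θ g) (x y : X) : inc θ (g x) (g y) = inc θ x y := by
  have h : (g x ∈ θ (g y)) ↔ x ∈ θ y := by
    rw [hg y, Finset.mem_image]
    constructor
    · rintro ⟨z, hz, hzx⟩
      rwa [← g.injective hzx]
    · intro hx
      exact ⟨x, hx, rfl⟩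
  unfold inc
  by_cases hx : x ∈ θ y
  · rw [if_pos hx, if_pos (h.2 hx)]
  · rw [if_neg hx, if_neg (fun h' => hx (h.1 h'))]

theorem des_sum {X : Type u} [Fintype X] [DecidableEq X] (θ : X → Finset X) (g : Equiv.Perm X) :
    ∑ x : X, inc θ x (g x) = ((univ.filter (fun x => x ∈ θ (g x))).card : ℤ) := by
  unfold inc
  rw [Finset.sum_boole]

theorem st_DES (h1 : ST_CORE.{u}) (h2 : ST_COMM.{u}) (h3 : ST_RED.{u}) (h4 : ST_POW.{u})
    (h5 : ST_PAR.{u}) (h6 : ST_EQV.{u}) : ST_DES.{u} := by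
  classical
  intro X _ _ _ lam k R θ σ H hlam hlt hcor hAut hfree hcard
  obtain ⟨θ', σ', c, hcor', hσ', hred⟩ := h3 X lam k θ σ hcor
  have hAut' : ∀ h ∈ H, Aut θ' h := fun h hh =>
    hred h (hAut h hh) (h2 X lam k θ σ h hlt hcor (hAut h hh))
  obtain ⟨hdvd, hE⟩ := h6 X θ' H hAut' hfree
  have hpar := h5 X lam k θ' σ' hcor'
  have hHpos : 0 < Nat.card H := Nat.card_pos
  have hXpos : 0 < Fintype.card X := Fintype.card_pos
  obtain ⟨r, hr⟩ := hdvd
  have hr1 : 1 ≤ r := by
    rcases Nat.eq_zero_or_pos r with h0 | h0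
    · rw [h0, mul_zero] at hr
      omega
    · exact h0
  have hrR : r ≤ R := by
    rw [hr, mul_comm R] at hcard
    exact Nat.le_of_mul_le_mul_left hcard hHpos
  refine ⟨r, fun g => (univ.filter (fun x => x ∈ θ' (g.1 x))).card, hr1, hrR, by
    rw [hr, mul_comm], ?_⟩
  refine ⟨hlt, ?_, hE, ?_⟩
  · rw [hpar, hr]
    push_cast
    ring
  · intro q e hq hqlam g hg1 hge
    have hq2 : q ≠ 2 := by
      rintro rfl
      exact hqlam (dvd_mul_right _ _)
    have hg1' : g.1 ≠ 1 := by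
      intro h
      exact hg1 (Subtype.ext h)
    have hge' : g.1 ^ (q ^ e) = 1 := by
      have := congrArg Subtype.val hge
      simpa using this
    have hqH : q ∣ Nat.card H := by
      have ho : orderOf g ∣ q ^ e := orderOf_dvd_of_pow_eq_one hge
      obtain ⟨j, _, hj⟩ := (Nat.dvd_prime_pow hq).1 ho
      have hj0 : j ≠ 0 := by
        rintro rfl
        rw [pow_zero, orderOf_eq_one_iff] at hj
        exact hg1 hj
      have h7 : q ∣ orderOf g := by
        rw [hj]
        exact dvd_pow_self q hj0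
      exact h7.trans (orderOf_dvd_natCard g)
    have hqX : (q : ℤ) ∣ (Fintype.card X : ℤ) := by
      rw [hr]
      exact_mod_cast dvd_mul_of_dvd_left hqH r
    have hqn : ¬ (q : ℤ) ∣ ((k : ℤ) - lam) := by
      intro hd
      have hk2 : (q : ℤ) ∣ (k : ℤ) ^ 2 := by
        rw [hpar]
        exact dvd_add hd (dvd_mul_of_dvd_right hqX _)
      have hk : (q : ℤ) ∣ (k : ℤ) := (Nat.prime_iff_prime_int.1 hq).dvd_of_dvd_pow hk2
      have hl : (q : ℤ) ∣ (lam : ℤ) := by
        have := dvd_sub hk hd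
        simpa using this
      exact hqlam (dvd_mul_of_dvd_right (by exact_mod_cast hl) 2)
    obtain ⟨hrow, hcol, mu, hpow⟩ := h4 X lam k c θ' σ' hcor' hσ'
    have hfr : ∀ (i : ℕ) (x : X), (g.1 ^ i) x = x → g.1 ^ i = 1 := by
      intro i x hx
      exact hfree (g.1 ^ i) (H.pow_mem g.2 i) x hx
    obtain ⟨α, hα1, hα2, hα3⟩ := h1 X q e g.1 hq hq2 hge' hg1' hfr (inc θ') ((k : ℤ) - lam) k mu c
      (by have : (lam : ℤ) < k := by exact_mod_cast hlt
          linarith) hqn (fun x y => des_inc θ' g.1 (hAut' g.1 g.2) x y) hrow hcol hpow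
    refine ⟨α, hα1, hα2, ?_⟩
    rw [← hα3, des_sum]

end Pool.Agent.Helper79.CR
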