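import Pool.Agent.Helper17.CR.Stmts

set_option autoImplicit false

namespace Pool.Agent.Helper79.CR

open Finset Pool.Agent.Helper17.CR

theorem phi_unit (q : ℕ) (hq : q.Prime) : ¬ IsUnit ((q : ℕ) : OO) := by
  intro h
  obtain ⟨u, hu⟩ := h.exists_right_inv
  have hint : IsIntegral ℤ (u : ℂ) := u.2
  have hval : (q : ℂ) * (u : ℂ) = 1 := by
    have := congrArg (algebraMap OO ℂ) hu
    simpa using this
  have hq0 : (q : ℂ) ≠ 0 := by exact_mod_cast hq.ne_zero
  have huq : (u : ℂ) = algebraMap ℚ ℂ ((q : ℚ)⁻¹) := by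
    rw [map_inv₀, map_natCast]
    exact eq_inv_of_mul_eq_one_right hval
  rw [huq] at hint
  have hint' : IsIntegral ℤ ((q : ℚ)⁻¹) :=
    (isIntegral_algebraMap_iff (algebraMap ℚ ℂ).injective).1 hint
  obtain ⟨n, hn⟩ := IsIntegrallyClosed.isIntegral_iff.1 hint'
  have hn' : (n : ℚ) * (q : ℚ) = 1 := by
    have h1 : (n : ℚ) = (q : ℚ)⁻¹ := by simpa using hn
    rw [h1]
    exact inv_mul_cancel₀ (by exact_mod_cast hq.ne_zero)
  have hn'' : n * (q : ℤ) = 1 := by exact_mod_cast hn'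
  have h2 : IsUnit (q : ℤ) := IsUnit.of_mul_eq_one n (by rw [mul_comm]; exact hn'')
  exact (Nat.prime_iff_prime_int.1 hq).not_isUnit h2

theorem st_PHI : ST_PHI := by
  intro q hq
  have hne : Ideal.span {((q : ℕ) : OO)} ≠ ⊤ := by
    intro h
    exact phi_unit q hq (Ideal.span_singleton_eq_top.1 h)
  obtain ⟨M, hM, hle⟩ := Ideal.exists_le_maximal _ hne
  let _ : Field (OO ⧸ M) := Ideal.Quotient.field M
  refine ⟨OO ⧸ M, inferInstance, Ideal.Quotient.mk M, ?_⟩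
  obtain ⟨p, hp⟩ := CharP.exists (OO ⧸ M)
  have h0 : ((q : ℕ) : OO ⧸ M) = 0 := by
    have h1 : Ideal.Quotient.mk M ((q : ℕ) : OO) = 0 :=
      Ideal.Quotient.eq_zero_iff_mem.2 (hle (Ideal.mem_span_singleton_self _))
    rw [map_natCast] at h1
    exact h1
  have hpq : p ∣ q := (CharP.cast_eq_zero_iff (OO ⧸ M) p q).1 h0
  rcases (Nat.dvd_prime hq).1 hpq with h1 | h1
  · exact absurd h1 (CharP.char_ne_one (OO ⧸ M) p)
  · rw [h1] at hp
    exact hp

end Pool.Agent.Helper79.CR
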