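import Pool.Agent.Helper17.CR.Stmts2
import Pool.Agent.Helper24.CR.WT

/-!
# The weights of an abelian normal `q`-subgroup acting non-trivially
-/

set_option autoImplicit false

namespace Pool.Agent.Helper17.CR

open Finset Module

universe u

theorem st_WT2 : ST_WT2.{u} := by
  intro G _ _ p _ V _ _ _ ρ q M hq hqp hMn hMp hM1 hM
  classical
  let n := Module.finrank (ZMod p) V
  let b : Module.Basis (Fin n) (ZMod p) V := Module.finBasis (ZMod p) V
  let K := AlgebraicClosure (ZMod p)
  let φ : Module.End (ZMod p) V →+* Module.End K (Fin n → K) :=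
    ((Matrix.toLinAlgEquiv' : Matrix (Fin n) (Fin n) K ≃ₐ[K] _) : Matrix (Fin n) (Fin n) K →+* _).comp
      (((algebraMap (ZMod p) K).mapMatrix).comp
        ((LinearMap.toMatrixAlgEquiv b : Module.End (ZMod p) V ≃ₐ[ZMod p] _) :
          Module.End (ZMod p) V →+* Matrix (Fin n) (Fin n) (ZMod p)))
  have hφ : Function.Injective φ := by
    intro a a' h
    have h1 := (Matrix.toLinAlgEquiv' : Matrix (Fin n) (Fin n) K ≃ₐ[K] _).injective h
    have h2 : LinearMap.toMatrixAlgEquiv b a = LinearMap.toMatrixAlgEquiv b a' := by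
      ext i j
      have h3 := congrFun (congrFun h1 i) j
      exact (algebraMap (ZMod p) K).injective h3
    exact (LinearMap.toMatrixAlgEquiv b).injective h2
  let A : G →* Module.End K (Fin n → K) := (φ : Module.End (ZMod p) V →* _).comp ρ
  obtain ⟨x0, hx0, hx1⟩ := hM1
  have hA : A x0 ≠ 1 := by
    intro h1
    refine hx1 (hφ ?_)
    rw [map_one]
    exact h1
  have hord : ∀ x ∈ M, ∃ n : ℕ, (n : K) ≠ 0 ∧ x ^ n = 1 := by
    intro x hx
    obtain ⟨k, hk⟩ := hMp ⟨x, hx⟩
    refine ⟨q ^ k, ?_, ?_⟩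
    · have hchar : CharP K p := inferInstance
      intro h1
      rw [CharP.cast_eq_zero_iff K p] at h1
      have h2 := (Nat.prime_dvd_prime_iff_eq (Fact.out : p.Prime) hq).1
        ((Fact.out : p.Prime).dvd_of_dvd_pow h1)
      exact hqp h2.symm
    · have h1 := congrArg Subtype.val hk
      simpa using h1
  obtain ⟨Om, h1, h2, h3, h4⟩ := wt_main A M hMn hM hord x0 hx0 hA
  refine ⟨K, inferInstance, Om, ?_, h2, h3, h4⟩
  rw [Module.finrank_fin_fun] at h1
  have h5 : Nat.card V = p ^ n := by
    have h6 := Module.natCard_eq_pow_finrank (K := ZMod p) (V := V)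
    rw [Nat.card_zmod] at h6
    exact h6
  rw [h5]
  exact Nat.pow_le_pow_right (Fact.out : p.Prime).pos h1

end Pool.Agent.Helper17.CR
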